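import Pool.Agent.H109R3.TC.Stmt
import Pool.Agent.Helper583.TCJ3
import Pool.Agent.Helper446.Deg

set_option autoImplicit false

/-!
Relative computability in the halting set, computable metric spaces with discrete completion.
-/

namespace Pool.Agent.X235.TCat

open Encodable Pool.Agent.Helper446 Pool.Agent.Helper446.Oracle Pool.Agent.Helper446.Defs
open Pool.Agent.Helper583.TT (CMS IsName pre)
open Pool.Agent.Helper583.TC (orc Red)
open Pool.Agent.H109R3.TC

@[fun_prop] theorem cpow {α : Type*} [Primcodable α] {f g : α → ℕ} (hf : Computable f)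
    (hg : Computable g) : Computable fun a => f a ^ g a := by
  have h1 : Primrec₂ fun a b : ℕ => a ^ b := by
    refine (Primrec₂.unpaired'.1 Nat.Primrec.pow)
  exact h1.to_comp.comp hf hg

section K

/-- the halting set -/
def K : Set ℕ := {n | ∃ s, RE.wst ℕ n.unpair.1 s n.unpair.2 = true}

theorem K_re : REPred fun n => n ∈ K := by
  show REPred fun n : ℕ => ∃ s, RE.wst ℕ n.unpair.1 s n.unpair.2 = true
  refine RE.exN (p := fun (n : ℕ) s => RE.wst ℕ n.unpair.1 s n.unpair.2 = true) (RE.of_bool ?_)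
  exact RE.wst_comp.comp (f := fun p : (ℕ × ℕ) × ℕ => RE.wst ℕ p.1.1 p.1.2 p.2)
    (g := fun x : ℕ × ℕ => ((x.1.unpair.1, x.2), x.1.unpair.2)) (by fun_prop)

variable {α β : Type*} [Primcodable α] [Primcodable β]

theorem exists_red {S : α → Prop} (h : REPred S) :
    ∃ f : α → ℕ, Computable f ∧ ∀ a, S a ↔ f a ∈ K := by
  have h1 : REPred fun m : ℕ => ∃ a : α, encode a = m ∧ S a := by
    refine RE.ex (p := fun (m : ℕ) (a : α) => encode a = m ∧ S a) (RE.and (RE.eq ?_ ?_) ?_)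
    · exact Computable.encode.comp Computable.snd
    · exact Computable.fst
    · exact RE.comp h Computable.snd
  obtain ⟨e, he⟩ := RE.wst_univ h1
  refine ⟨fun a => Nat.pair e (encode a), ?_, fun a => ?_⟩
  · exact (Primrec₂.natPair.to_comp).comp (Computable.const e) Computable.encode
  · show S a ↔ ∃ s, RE.wst ℕ (Nat.pair e (encode a)).unpair.1 s
      (Nat.pair e (encode a)).unpair.2 = true
    rw [Nat.unpair_pair]
    rw [← he (encode a)]
    constructor
    · intro h; exact ⟨a, rfl, h⟩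
    · rintro ⟨b, hb, h⟩
      rw [← encode_injective hb]; exact h

theorem rein_not {S : α → Prop} (h : REPred S) : REIn K fun a => ¬ S a := by
  obtain ⟨f, hf, h1⟩ := exists_red h
  exact (REIn.not_mem (A := K) hf).of_eq fun a => (not_congr (h1 a)).symm

end K

section tot

variable {A : Set ℕ}

/-- graphs of total functions recursive in `A` -/
theorem graph_tot {f : ℕ → ℕ} (hf : TotIn A f) : REIn A fun p : ℕ × ℕ => f p.1 = p.2 := by
  refine (graph_of_recursiveIn hf).of_eq fun p => ?_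
  rw [Part.mem_some_iff]
  exact eq_comm

theorem tot_count {p : ℕ → Prop} [DecidablePred p] (h1 : REIn A p) (h2 : REIn A fun n => ¬ p n) :
    TotIn A fun n => Nat.count p n := by
  have hF : TotIn A fun n => if p n then 1 else 0 := by
    apply recursiveIn_of_graph
    have h3 : REIn A fun x : ℕ × ℕ => (p x.1 ∧ x.2 = 1) ∨ (¬ p x.1 ∧ x.2 = 0) := by
      refine REIn.or (REIn.and (h1.comp (by fun_prop)) (REIn.of_re ?_))
        (REIn.and (h2.comp (by fun_prop)) (REIn.of_re ?_))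
      · exact RE.eq (by fun_prop) (by fun_prop)
      · exact RE.eq (by fun_prop) (by fun_prop)
    refine h3.of_eq fun x => ?_
    by_cases hp : p x.1 <;> simp [hp, eq_comm]
  have h3 : TotIn A fun m : ℕ => m.unpair.2.unpair.2 + if p m.unpair.2.unpair.1 then 1 else 0 := by
    have h4 : TotIn A fun m : ℕ => if p m.unpair.2.unpair.1 then 1 else 0 :=
      hF.comp (TotIn.of_comp (f := fun m : ℕ => m.unpair.2.unpair.1) (by fun_prop))
    have h5 : TotIn A fun m : ℕ => m.unpair.2.unpair.2 := TotIn.of_comp (by fun_prop)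
    have h6 : Computable fun m : ℕ => m.unpair.1 + m.unpair.2 := by fun_prop
    refine Nat.RecursiveIn.of_eq ((TotIn.of_comp h6).comp (h5.pair h4)) fun m => ?_
    simp only [Nat.unpair_pair]
  have h4 := (TotIn.prec (TotIn.of_comp (A := A) (Computable.const 0)) h3).comp
    (TotIn.of_comp (A := A) (f := fun n : ℕ => Nat.pair 0 n) (by fun_prop))
  refine Nat.RecursiveIn.of_eq h4 fun n => ?_
  simp only [Nat.unpair_pair]
  congr 1
  induction n with
  | zero => simp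
  | succ n ih => rw [Nat.count_succ]; simp only [ih]

theorem tot_nth {p : ℕ → Prop} [DecidablePred p] (h1 : REIn A p) (h2 : REIn A fun n => ¬ p n)
    (hinf : (Set.ofPred p).Infinite) : TotIn A fun n => Nat.nth p n := by
  apply recursiveIn_of_graph
  have h3 : REIn A fun x : ℕ × ℕ => p x.2 ∧ Nat.count p x.2 = x.1 := by
    refine REIn.and (h1.comp (by fun_prop)) ?_
    exact (graph_tot (tot_count h1 h2)).comp (f := fun x : ℕ × ℕ => (x.2, x.1)) (by fun_prop)
  refine h3.of_eq fun x => ?_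
  constructor
  · rintro ⟨h4, h5⟩
    rw [← h5]
    exact Nat.nth_count h4
  · intro h
    rw [← h]
    exact ⟨Nat.nth_mem_of_infinite hinf _, Nat.count_nth_of_infinite hinf _⟩

end tot

section cms

variable (M : CMS)

theorem ne_re : REPred fun p : ℕ × ℕ => M.c p.1 ≠ M.c p.2 := by
  obtain ⟨q, hq, h⟩ := M.comp
  have h1 : REPred fun p : ℕ × ℕ => ∃ k, 1 < q (p.1, p.2, k) := by
    refine RE.exN (p := fun (p : ℕ × ℕ) k => 1 < q (p.1, p.2, k)) (RE.lt (by fun_prop) ?_)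
    exact hq.comp (g := fun x : (ℕ × ℕ) × ℕ => (x.1.1, x.1.2, x.2)) (by fun_prop)
  refine h1.of_eq fun p => ?_
  constructor
  · rintro ⟨k, hk⟩ he
    have := h p.1 p.2 k
    rw [he, dist_self] at this
    have h2 : (2 : ℝ) ≤ q (p.1, p.2, k) := by exact_mod_cast hk
    have h3 : (0 : ℝ) < 2 ^ k := by positivity
    rw [zero_sub, abs_neg, abs_of_nonneg (by positivity)] at this
    rw [div_le_div_iff_of_pos_right h3] at this
    linarith
  · intro hne
    have hd : 0 < dist (M.c p.1) (M.c p.2) := dist_pos.2 hne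
    obtain ⟨k, hk⟩ := exists_pow_lt_of_lt_one (show 0 < dist (M.c p.1) (M.c p.2) / 2 by positivity)
      (show (1 / 2 : ℝ) < 1 by norm_num)
    refine ⟨k, ?_⟩
    by_contra hcon
    have h2 : (q (p.1, p.2, k) : ℝ) ≤ 1 := by exact_mod_cast not_lt.1 hcon
    have h3 : (0 : ℝ) < 2 ^ k := by positivity
    have h4 := (abs_le.1 (h p.1 p.2 k)).2
    have h5 : (q (p.1, p.2, k) : ℝ) / 2 ^ k ≤ 1 / 2 ^ k :=
      (div_le_div_iff_of_pos_right h3).2 h2
    rw [div_pow, one_pow] at hk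
    linarith

/-- the ball test -/
def Tst (a i k e : ℕ) : Prop := dist (M.c a) (M.c i) + 1 / 2 ^ k < 1 / 2 ^ e

theorem tst_re : REPred fun p : (ℕ × ℕ) × (ℕ × ℕ) => Tst M p.1.1 p.1.2 p.2.1 p.2.2 := by
  obtain ⟨q, hq, h⟩ := M.comp
  -- `(q + 1) / 2^l + 1/2^k < 1/2^e`
  have h1 : REPred fun p : (ℕ × ℕ) × (ℕ × ℕ) => ∃ l,
      (q (p.1.1, p.1.2, l) + 1) * 2 ^ p.2.1 * 2 ^ p.2.2 + 2 ^ l * 2 ^ p.2.2 <
        2 ^ l * 2 ^ p.2.1 := by
    refine RE.exN (p := fun (p : (ℕ × ℕ) × (ℕ × ℕ)) l =>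
      (q (p.1.1, p.1.2, l) + 1) * 2 ^ p.2.1 * 2 ^ p.2.2 + 2 ^ l * 2 ^ p.2.2 <
        2 ^ l * 2 ^ p.2.1) (RE.lt ?_ ?_)
    · have h2 : Computable fun x : ((ℕ × ℕ) × (ℕ × ℕ)) × ℕ => q (x.1.1.1, x.1.1.2, x.2) :=
        hq.comp (g := fun x : ((ℕ × ℕ) × (ℕ × ℕ)) × ℕ => (x.1.1.1, x.1.1.2, x.2)) (by fun_prop)
      fun_prop
    · fun_prop
  refine h1.of_eq fun p => ?_
  obtain ⟨⟨a, i⟩, k, e⟩ := p
  unfold Tst
  dsimp only
  have hk : (0 : ℝ) < 2 ^ k := by positivity
  have he : (0 : ℝ) < 2 ^ e := by positivity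
  have key : ∀ l : ℕ, ((q (a, i, l) + 1) * 2 ^ k * 2 ^ e + 2 ^ l * 2 ^ e < 2 ^ l * 2 ^ k ↔
      ((q (a, i, l) : ℝ) + 1) / 2 ^ l + 1 / 2 ^ k < 1 / 2 ^ e) := by
    intro l
    have hl : (0 : ℝ) < 2 ^ l := by positivity
    rw [← Nat.cast_lt (α := ℝ)]
    push_cast
    rw [div_add_div _ _ hl.ne' hk.ne', div_lt_div_iff₀ (by positivity) he]
    constructor <;> intro h <;> nlinarith
  constructor
  · rintro ⟨l, hl⟩
    rw [key] at hl
    have := (abs_le.1 (h a i l)).2
    rw [add_div] at hl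
    linarith
  · intro hlt
    set g := 1 / 2 ^ e - (dist (M.c a) (M.c i) + 1 / 2 ^ k) with hg
    have hg0 : 0 < g := by rw [hg]; linarith
    obtain ⟨l, hl⟩ := exists_pow_lt_of_lt_one (show 0 < g / 2 by positivity)
      (show (1 / 2 : ℝ) < 1 by norm_num)
    refine ⟨l, ?_⟩
    rw [key, add_div]
    have := (abs_le.1 (h a i l)).1
    rw [div_pow, one_pow] at hl
    linarith

/-- `2 ^ -e` is an isolation radius for `c i` -/
def Iso (i e : ℕ) : Prop := ∀ j, dist (M.c i) (M.c j) < 1 / 2 ^ e → M.c j = M.c i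

theorem near_re : REPred fun p : (ℕ × ℕ) × ℕ => dist (M.c p.1.1) (M.c p.1.2) < 1 / 2 ^ p.2 := by
  have h1 : REPred fun p : (ℕ × ℕ) × ℕ => ∃ k, Tst M p.1.1 p.1.2 k p.2 := by
    refine RE.exN (p := fun (p : (ℕ × ℕ) × ℕ) k => Tst M p.1.1 p.1.2 k p.2) ?_
    exact RE.comp (tst_re M) (f := fun x : ((ℕ × ℕ) × ℕ) × ℕ => ((x.1.1.1, x.1.1.2), (x.2, x.1.2)))
      (by fun_prop)
  refine h1.of_eq fun p => ?_
  unfold Tst
  constructor
  · rintro ⟨k, hk⟩
    have : (0 : ℝ) < 1 / 2 ^ k := by positivity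
    linarith
  · intro h
    obtain ⟨k, hk⟩ := exists_pow_lt_of_lt_one
      (show 0 < 1 / 2 ^ p.2 - dist (M.c p.1.1) (M.c p.1.2) by linarith)
      (show (1 / 2 : ℝ) < 1 by norm_num)
    refine ⟨k, ?_⟩
    rw [div_pow, one_pow] at hk
    linarith

theorem niso_re : REPred fun p : ℕ × ℕ => ¬ Iso M p.1 p.2 := by
  have h1 : REPred fun p : ℕ × ℕ => ∃ j, dist (M.c p.1) (M.c j) < 1 / 2 ^ p.2 ∧ M.c j ≠ M.c p.1 := by
    refine RE.exN (p := fun (p : ℕ × ℕ) j => dist (M.c p.1) (M.c j) < 1 / 2 ^ p.2 ∧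
      M.c j ≠ M.c p.1) (RE.and ?_ ?_)
    · exact RE.comp (near_re M) (f := fun x : (ℕ × ℕ) × ℕ => ((x.1.1, x.2), x.1.2)) (by fun_prop)
    · exact RE.comp (ne_re M) (f := fun x : (ℕ × ℕ) × ℕ => (x.2, x.1.1)) (by fun_prop)
  refine h1.of_eq fun p => ?_
  unfold Iso
  push Not
  rfl

end cms

end Pool.Agent.X235.TCat
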