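import Pool.Agent.X235.TCat.Upper

set_option autoImplicit false

/-!
The countable infinite discrete space is categorical relative to the halting set, and every oracle
relative to which it is categorical computes every c.e. set.
-/

namespace Pool.Agent.X235.TCat

open Encodable Pool.Agent.Helper446 Pool.Agent.Helper446.Oracle Pool.Agent.Helper446.Defs
open Pool.Agent.Helper583.TT (CMS IsName pre)
open Pool.Agent.Helper583.TC (orc Red)
open Pool.Agent.H109R3.TC

section rank

variable (M : CMS)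

/-- `i` is the first index of the point `c i` -/
def Fst (i : ℕ) : Prop := ∀ j < i, M.c j ≠ M.c i

noncomputable instance : DecidablePred (Fst M) := fun _ => Classical.dec _

/-- the first index of the point `c i` -/
noncomputable def idx (i : ℕ) : ℕ := open Classical in Nat.find (p := fun j => M.c j = M.c i) ⟨i, rfl⟩

theorem c_idx (i : ℕ) : M.c (idx M i) = M.c i := by
  classical
  exact Nat.find_spec (p := fun j => M.c j = M.c i) ⟨i, rfl⟩

theorem idx_congr {i j : ℕ} (h : M.c i = M.c j) : idx M i = idx M j := by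
  classical
  have h1 : ∀ i j, M.c i = M.c j → idx M i ≤ idx M j := fun i j h =>
    Nat.find_min' (p := fun k => M.c k = M.c i) ⟨i, rfl⟩ ((c_idx M j).trans h.symm)
  exact le_antisymm (h1 i j h) (h1 j i h.symm)

theorem fst_idx (i : ℕ) : Fst M (idx M i) := by
  classical
  intro j hj h
  exact Nat.find_min (p := fun j => M.c j = M.c i) ⟨i, rfl⟩ hj (h.trans (c_idx M i))

theorem idx_of_fst {i : ℕ} (h : Fst M i) : idx M i = i := by
  classical
  rw [idx, Nat.find_eq_iff]
  exact ⟨rfl, fun j hj h1 => h j hj h1⟩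

theorem fst_inf [DiscreteTopology M.Y] [Infinite M.Y] : (Set.ofPred (Fst M)).Infinite := by
  have h : Function.Surjective fun i : (Set.ofPred (Fst M)) => M.c i := by
    intro x
    obtain ⟨i, rfl⟩ := c_surj M x
    exact ⟨⟨idx M i, fst_idx M i⟩, c_idx M i⟩
  intro hfin
  have := hfin.to_subtype
  exact not_finite_iff_infinite.2 ‹Infinite M.Y› (Finite.of_surjective _ h)

noncomputable def rk (i : ℕ) : ℕ := Nat.count (Fst M) (idx M i)

noncomputable def sel (r : ℕ) : ℕ := Nat.nth (Fst M) r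

theorem rk_sel [DiscreteTopology M.Y] [Infinite M.Y] (r : ℕ) : rk M (sel M r) = r := by
  unfold rk sel
  rw [idx_of_fst M (Nat.nth_mem_of_infinite (fst_inf M) r)]
  exact Nat.count_nth_of_infinite (fst_inf M) r

theorem sel_rk (i : ℕ) : sel M (rk M i) = idx M i := Nat.nth_count (fst_idx M i)

theorem eq_rein : REIn K fun p : ℕ × ℕ => M.c p.1 = M.c p.2 :=
  (rein_not (ne_re M)).of_eq fun _ => not_not

theorem fst_rein : REIn K fun i : ℕ => Fst M i := by
  refine REIn.of_re ?_
  show REPred fun i : ℕ => ∀ j < i, M.c j ≠ M.c i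
  refine RE.all_lt (p := fun (i : ℕ) j => M.c j ≠ M.c i) ?_ Computable.id
  exact RE.comp (ne_re M) (f := fun x : ℕ × ℕ => (x.2, x.1)) (by fun_prop)

theorem not_fst_rein : REIn K fun i : ℕ => ¬ Fst M i := by
  refine rein_not ?_
  show REPred fun i : ℕ => ∀ j < i, M.c j ≠ M.c i
  refine RE.all_lt (p := fun (i : ℕ) j => M.c j ≠ M.c i) ?_ Computable.id
  exact RE.comp (ne_re M) (f := fun x : ℕ × ℕ => (x.2, x.1)) (by fun_prop)

theorem tot_idx : TotIn K (idx M) := by
  classical
  apply recursiveIn_of_graph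
  have h1 : REIn K fun p : ℕ × ℕ => M.c p.2 = M.c p.1 ∧ ∀ j < p.2, M.c j ≠ M.c p.1 := by
    refine REIn.and ((eq_rein M).comp (f := fun x : ℕ × ℕ => (x.2, x.1)) (by fun_prop)) ?_
    refine REIn.all_lt (S := fun (p : ℕ × ℕ) j => M.c j ≠ M.c p.1) ?_ (by fun_prop)
    exact REIn.of_re (RE.comp (ne_re M) (f := fun x : (ℕ × ℕ) × ℕ => (x.2, x.1.1)) (by fun_prop))
  refine h1.of_eq fun p => ?_
  rw [idx]
  exact (Nat.find_eq_iff (p := fun j => M.c j = M.c p.1) ⟨p.1, rfl⟩).symm

theorem tot_rk : TotIn K (rk M) :=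
  (tot_count (fst_rein M) (not_fst_rein M)).comp (tot_idx M)

theorem tot_sel [DiscreteTopology M.Y] [Infinite M.Y] : TotIn K (sel M) :=
  tot_nth (fst_rein M) (not_fst_rein M) (fst_inf M)

variable (N : CMS)

/-- the index map -/
noncomputable def Hm (i : ℕ) : ℕ := sel N (rk M i)

theorem Hm_congr {i j : ℕ} (h : M.c i = M.c j) : Hm M N i = Hm M N j := by
  unfold Hm rk
  rw [idx_congr M h]

theorem Hm_Hm [DiscreteTopology N.Y] [Infinite N.Y] (i : ℕ) :
    M.c (Hm N M (Hm M N i)) = M.c i := by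
  unfold Hm
  rw [rk_sel, sel_rk, c_idx]

/-- the induced map of points -/
noncomputable def hm [DiscreteTopology M.Y] (x : M.Y) : N.Y :=
  N.c (Hm M N (Function.surjInv (c_surj M) x))

theorem hm_c [DiscreteTopology M.Y] (i : ℕ) : N.c (Hm M N i) = hm M N (M.c i) := by
  unfold hm
  rw [Hm_congr M N (Function.surjInv_eq (c_surj M) (M.c i))]

theorem hm_hm [DiscreteTopology M.Y] [DiscreteTopology N.Y] [Infinite N.Y] (x : M.Y) :
    hm N M (hm M N x) = x := by
  obtain ⟨i, rfl⟩ := c_surj M x
  rw [← hm_c, ← hm_c, Hm_Hm]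

noncomputable def hE [DiscreteTopology M.Y] [DiscreteTopology N.Y] [Infinite M.Y] [Infinite N.Y] :
    M.Y ≃ₜ N.Y where
  toFun := hm M N
  invFun := hm N M
  left_inv := hm_hm M N
  right_inv := hm_hm N M
  continuous_toFun := continuous_of_discreteTopology
  continuous_invFun := continuous_of_discreteTopology

end rank

/-- The countable infinite discrete space is categorical relative to the halting set. -/
theorem catBoth_K : CatBoth ℕ (chiN K) := by
  intro M N ⟨e⟩ ⟨f⟩
  haveI : DiscreteTopology M.Y := e.isEmbedding.discreteTopology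
  haveI : DiscreteTopology N.Y := f.isEmbedding.discreteTopology
  haveI : Infinite M.Y := Infinite.of_injective _ e.symm.injective
  haveI : Infinite N.Y := Infinite.of_injective _ f.symm.injective
  refine ⟨hE M N, ?_, ?_⟩
  · exact compMap_of (H := Hm M N) (hm M N) ((tot_sel N).comp (tot_rk M)) (hm_c M N)
      (fun i j h => Hm_congr M N h)
  · exact compMap_of (H := Hm N M) (hm N M) ((tot_sel M).comp (tot_rk N)) (hm_c N M)
      (fun i j h => Hm_congr N M h)

/-! ### the lower bound -/

/-- the standard presentation of the discrete space -/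
noncomputable def N0 : CMS where
  Y := ℕ
  c := id
  dense := Function.surjective_id.denseRange
  comp := by
    refine ⟨fun p => ((p.1 - p.2.1) + (p.2.1 - p.1)) * 2 ^ p.2.2, by fun_prop, fun i j k => ?_⟩
    have h1 : ((((i - j) + (j - i)) * 2 ^ k : ℕ) : ℝ) / 2 ^ k = dist i j := by
      push_cast
      rw [mul_div_assoc, div_self (by positivity), mul_one, Nat.dist_eq]
      rcases le_total i j with h | h
      · rw [Nat.sub_eq_zero_of_le h, Nat.cast_sub h]
        have : (i : ℝ) ≤ j := by exact_mod_cast h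
        rw [abs_of_nonpos (by linarith)]
        push_cast; ring
      · rw [Nat.sub_eq_zero_of_le h, Nat.cast_sub h]
        have : (j : ℝ) ≤ i := by exact_mod_cast h
        rw [abs_of_nonneg (by linarith)]
        push_cast; ring
    show |dist i j - _| ≤ _
    dsimp only
    rw [h1, sub_self, abs_zero]
    positivity

section lower

variable (r : ℕ → ℕ → Bool)

/-- the gap of the `n`-th pair -/
noncomputable def dl (n : ℕ) : ℝ :=
  open Classical in if h : ∃ s, r n s = true then 1 / 2 ^ (Nat.find h) else 0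

/-- approximation of the gap, multiplied by `2 ^ k` -/
def ap (n k : ℕ) : ℕ :=
  if h : ∃ s, s < k + 1 ∧ r n s = true then 2 ^ (k - Nat.find h) else 0

theorem dl_nonneg (n : ℕ) : 0 ≤ dl r n := by
  unfold dl
  split
  · positivity
  · exact le_rfl

theorem dl_le (n : ℕ) : dl r n ≤ 1 := by
  unfold dl
  split
  · rw [div_le_one (by positivity)]
    exact one_le_pow₀ (by norm_num)
  · norm_num

theorem dl_pos (n : ℕ) : dl r n ≠ 0 ↔ ∃ s, r n s = true := by
  unfold dl
  split
  · rename_i h
    simp only [ne_eq]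
    constructor
    · intro _; exact h
    · intro _; positivity
  · rename_i h
    simp [h]

theorem ap_le (n k : ℕ) : (ap r n k : ℝ) / 2 ^ k ≤ dl r n ∧
    dl r n ≤ (ap r n k : ℝ) / 2 ^ k + 1 / 2 ^ (k + 1) := by
  classical
  have hk : (0 : ℝ) < 2 ^ k := by positivity
  unfold ap dl
  by_cases h : ∃ s, s < k + 1 ∧ r n s = true
  · have h' : ∃ s, r n s = true := by
      obtain ⟨s, -, hs⟩ := h
      exact ⟨s, hs⟩
    rw [dif_pos h, dif_pos h']
    have h1 : Nat.find h = Nat.find h' := by
      rw [Nat.find_eq_iff]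
      refine ⟨⟨?_, Nat.find_spec h'⟩, fun m hm h2 => Nat.find_min h' hm h2.2⟩
      obtain ⟨s, h3, h4⟩ := h
      exact lt_of_le_of_lt (Nat.find_min' h' h4) h3
    have h2 : Nat.find h < k + 1 := (Nat.find_spec h).1
    rw [h1] at h2
    rw [h1]
    have h3 : (((2 ^ (k - Nat.find h') : ℕ) : ℝ)) / 2 ^ k = 1 / 2 ^ (Nat.find h') := by
      push_cast
      rw [div_eq_div_iff hk.ne' (by positivity), one_mul, ← pow_add]
      congr 1
      omega
    rw [h3]
    exact ⟨le_rfl, by linarith [show (0 : ℝ) < 1 / 2 ^ (k + 1) by positivity]⟩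
  · rw [dif_neg h]
    by_cases h' : ∃ s, r n s = true
    · rw [dif_pos h']
      have h1 : k + 1 ≤ Nat.find h' := by
        by_contra hcon
        exact h ⟨_, not_le.1 hcon, Nat.find_spec h'⟩
      refine ⟨by simp, ?_⟩
      have : (1 : ℝ) / 2 ^ (Nat.find h') ≤ 1 / 2 ^ (k + 1) :=
        one_div_le_one_div_of_le (by positivity) (pow_le_pow_right₀ (by norm_num) h1)
      simpa using this
    · rw [dif_neg h']
      simp

/-- the points on the line: `3n` and `3n + gap` -/
noncomputable def pt (i : ℕ) : ℝ := 3 * (i / 2 : ℕ) + if i % 2 = 1 then dl r (i / 2) else 0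

/-- approximations of the points, multiplied by `2 ^ k` -/
def pa (i k : ℕ) : ℕ := 3 * (i / 2) * 2 ^ k + if i % 2 = 1 then ap r (i / 2) k else 0

theorem pa_le (i k : ℕ) : (pa r i k : ℝ) / 2 ^ k ≤ pt r i ∧
    pt r i ≤ (pa r i k : ℝ) / 2 ^ k + 1 / 2 ^ (k + 1) := by
  have hk : (0 : ℝ) < 2 ^ k := by positivity
  have h1 := ap_le r (i / 2) k
  unfold pa pt
  by_cases h : i % 2 = 1
  · rw [if_pos h, if_pos h]
    push_cast
    rw [add_div, mul_div_assoc, div_self hk.ne', mul_one]
    constructor <;> linarith [h1.1, h1.2]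
  · rw [if_neg h, if_neg h]
    push_cast
    rw [add_zero, mul_div_assoc, div_self hk.ne', mul_one, add_zero]
    exact ⟨le_rfl, by linarith [show (0 : ℝ) < 1 / 2 ^ (k + 1) by positivity]⟩

theorem pt_tendsto : Filter.Tendsto (pt r) Filter.atTop Filter.atTop := by
  refine Filter.tendsto_atTop_mono (f := fun i : ℕ => (i : ℝ) / 2 + (-1 / 2)) ?_ ?_
  · intro i
    have h1 : (i : ℝ) ≤ 2 * (i / 2 : ℕ) + 1 := by
      have : i ≤ 2 * (i / 2) + 1 := by omega
      exact_mod_cast this
    have h2 : (0 : ℝ) ≤ (i / 2 : ℕ) := Nat.cast_nonneg _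
    have h3 : (0 : ℝ) ≤ if i % 2 = 1 then dl r (i / 2) else 0 := by
      split
      · exact dl_nonneg r _
      · exact le_rfl
    unfold pt
    linarith
  · exact Filter.tendsto_atTop_add_const_right _ _
      (Filter.Tendsto.atTop_div_const (by norm_num) tendsto_natCast_atTop_atTop)

theorem pt_closedMap : IsClosedMap (pt r) := by
  apply IsProperMap.isClosedMap
  rw [isProperMap_iff_tendsto_cocompact]
  refine ⟨continuous_of_discreteTopology, ?_⟩
  rw [Filter.cocompact_eq_cofinite, Nat.cofinite_eq_atTop]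
  exact (pt_tendsto r).mono_right atTop_le_cocompact

/-- the set of points -/
def Yr : Set ℝ := Set.range (pt r)

/-- the dense sequence -/
noncomputable def cr (i : ℕ) : Yr r := ⟨pt r i, i, rfl⟩

theorem cr_surj : Function.Surjective (cr r) := by
  rintro ⟨x, i, rfl⟩
  exact ⟨i, rfl⟩

theorem Yr_closed : IsClosed (Yr r) := (pt_closedMap r).isClosed_range

theorem Yr_forall_closed (s : Set (Yr r)) : IsClosed s := by
  have h1 : Subtype.val '' s = pt r '' (cr r ⁻¹' s) := by
    ext x
    constructor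
    · rintro ⟨y, hy, rfl⟩
      obtain ⟨i, rfl⟩ := cr_surj r y
      exact ⟨i, hy, rfl⟩
    · rintro ⟨i, hi, rfl⟩
      exact ⟨cr r i, hi, rfl⟩
  have h2 : IsClosed (Subtype.val '' s) := by
    rw [h1]
    exact pt_closedMap r _ (isClosed_discrete _)
  have h3 : s = Subtype.val ⁻¹' (Subtype.val '' s) :=
    (Set.preimage_image_eq _ Subtype.val_injective).symm
  rw [h3]
  exact h2.preimage continuous_subtype_val

instance : DiscreteTopology (Yr r) := by
  rw [discreteTopology_iff_isOpen_singleton]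
  intro x
  rw [← isClosed_compl_iff]
  exact Yr_forall_closed r _

instance : CompleteSpace (Yr r) := (Yr_closed r).completeSpace_coe

instance : Countable (Yr r) := (Set.countable_range (pt r)).to_subtype

theorem pt_even (n : ℕ) : pt r (2 * n) = 3 * n := by
  unfold pt
  rw [if_neg (by omega), Nat.mul_div_cancel_left n (by norm_num)]
  ring

theorem pt_odd (n : ℕ) : pt r (2 * n + 1) = 3 * n + dl r n := by
  unfold pt
  have : (2 * n + 1) / 2 = n := by omega
  rw [if_pos (by omega), this]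

instance : Infinite (Yr r) := by
  refine Infinite.of_injective (fun n : ℕ => cr r (2 * n)) fun a b h => ?_
  have h1 : pt r (2 * a) = pt r (2 * b) := congrArg Subtype.val h
  rw [pt_even, pt_even] at h1
  have h2 : (a : ℝ) = b := by linarith
  exact_mod_cast h2

theorem cr_eq_iff (n : ℕ) : cr r (2 * n) ≠ cr r (2 * n + 1) ↔ ∃ s, r n s = true := by
  rw [← dl_pos]
  have h : cr r (2 * n) = cr r (2 * n + 1) ↔ pt r (2 * n) = pt r (2 * n + 1) := Subtype.ext_iff
  rw [Ne, h, pt_even, pt_odd]
  constructor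
  · intro h1 h2
    exact h1 (by rw [h2]; ring)
  · intro h1 h2
    exact h1 (by linarith)

@[fun_prop] theorem cdiv {α : Type*} [Primcodable α] {f g : α → ℕ} (hf : Computable f)
    (hg : Computable g) : Computable fun x => f x / g x := Primrec.nat_div.to_comp.comp hf hg

@[fun_prop] theorem cmod {α : Type*} [Primcodable α] {f g : α → ℕ} (hf : Computable f)
    (hg : Computable g) : Computable fun x => f x % g x := Primrec.nat_mod.to_comp.comp hf hg

variable {r}

theorem ap_comp (hr : Computable₂ r) : Computable fun p : ℕ × ℕ => ap r p.1 p.2 := by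
  apply RE.computable_of_graph
  have hr' : Computable fun x : ℕ × ℕ => r x.1 x.2 := hr
  have h1 : REPred fun x : (ℕ × ℕ) × ℕ =>
      (x.2 = 0 ∧ ∀ s < x.1.2 + 1, r x.1.1 s = false) ∨
      ∃ s, s < x.1.2 + 1 ∧ r x.1.1 s = true ∧ (∀ t < s, r x.1.1 t = false) ∧
        x.2 = 2 ^ (x.1.2 - s) := by
    refine RE.or (RE.and (RE.eq (by fun_prop) (by fun_prop)) ?_) ?_
    · refine RE.all_lt (p := fun (x : (ℕ × ℕ) × ℕ) s => r x.1.1 s = false) ?_ (by fun_prop)
      refine RE.eq ?_ (by fun_prop)
      exact hr'.comp (g := fun x : ((ℕ × ℕ) × ℕ) × ℕ => (x.1.1.1, x.2)) (by fun_prop)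
    · refine RE.exN (p := fun (x : (ℕ × ℕ) × ℕ) s => s < x.1.2 + 1 ∧ r x.1.1 s = true ∧
        (∀ t < s, r x.1.1 t = false) ∧ x.2 = 2 ^ (x.1.2 - s)) ?_
      refine RE.and (RE.lt (by fun_prop) (by fun_prop)) (RE.and (RE.of_bool ?_) (RE.and ?_ ?_))
      · exact hr'.comp (g := fun x : ((ℕ × ℕ) × ℕ) × ℕ => (x.1.1.1, x.2)) (by fun_prop)
      · refine RE.all_lt (p := fun (x : ((ℕ × ℕ) × ℕ) × ℕ) t => r x.1.1.1 t = false) ?_
          (by fun_prop)
        refine RE.eq ?_ (by fun_prop)
        exact hr'.comp (g := fun x : (((ℕ × ℕ) × ℕ) × ℕ) × ℕ => (x.1.1.1.1, x.2)) (by fun_prop)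
      · exact RE.eq (by fun_prop) (by fun_prop)
  refine h1.of_eq fun x => ?_
  obtain ⟨⟨n, k⟩, v⟩ := x
  dsimp only
  unfold ap
  by_cases h : ∃ s, s < k + 1 ∧ r n s = true
  · rw [dif_pos h]
    constructor
    · rintro (⟨h2, h3⟩ | ⟨s, h2, h3, h4, h5⟩)
      · obtain ⟨s, hs, hs'⟩ := h
        rw [h3 s hs] at hs'
        exact absurd hs' (by simp)
      · have : Nat.find h = s := by
          rw [Nat.find_eq_iff]
          refine ⟨⟨h2, h3⟩, fun t ht h6 => ?_⟩
          rw [h4 t ht] at h6
          exact absurd h6.2 (by simp)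
        rw [this, h5]
    · intro h2
      refine Or.inr ⟨Nat.find h, (Nat.find_spec h).1, (Nat.find_spec h).2, fun t ht => ?_, h2.symm⟩
      have := Nat.find_min h ht
      rw [not_and] at this
      simpa using this (lt_trans ht (Nat.find_spec h).1)
  · rw [dif_neg h]
    push Not at h
    constructor
    · rintro (⟨h2, h3⟩ | ⟨s, h2, h3, -⟩)
      · exact h2.symm
      · exact absurd h3 (h s h2)
    · intro h2
      exact Or.inl ⟨h2.symm, fun s hs => by simpa using h s hs⟩

theorem pa_comp (hr : Computable₂ r) : Computable fun p : ℕ × ℕ => pa r p.1 p.2 := by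
  unfold pa
  have h1 : Computable fun p : ℕ × ℕ => ap r (p.1 / 2) p.2 :=
    (ap_comp hr).comp (g := fun p : ℕ × ℕ => (p.1 / 2, p.2)) (by fun_prop)
  have h2 : Computable fun p : ℕ × ℕ => if p.1 % 2 = 1 then ap r (p.1 / 2) p.2 else 0 :=
    RE.cite (RE.cp_eq (by fun_prop) (by fun_prop)) h1 (by fun_prop)
  fun_prop

/-- the presentation which encodes a c.e. set -/
noncomputable def Mr (hr : Computable₂ r) : CMS where
  Y := Yr r
  c := cr r
  dense := (cr_surj r).denseRange
  comp := by
    have h0 := pa_comp hr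
    have h1 : Computable fun p : ℕ × ℕ × ℕ => pa r p.1 p.2.2 :=
      h0.comp (g := fun p : ℕ × ℕ × ℕ => (p.1, p.2.2)) (by fun_prop)
    have h2 : Computable fun p : ℕ × ℕ × ℕ => pa r p.2.1 p.2.2 :=
      h0.comp (g := fun p : ℕ × ℕ × ℕ => (p.2.1, p.2.2)) (by fun_prop)
    refine ⟨fun p => (pa r p.1 p.2.2 - pa r p.2.1 p.2.2) + (pa r p.2.1 p.2.2 - pa r p.1 p.2.2),
      by fun_prop, fun i j k => ?_⟩
    have hk : (0 : ℝ) < 2 ^ k := by positivity
    have h3 := pa_le r i k
    have h4 := pa_le r j k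
    have h5 : (1 : ℝ) / 2 ^ k = 1 / 2 ^ (k + 1) + 1 / 2 ^ (k + 1) := by
      rw [pow_succ]; field_simp; norm_num
    have h6 : (((pa r i k - pa r j k) + (pa r j k - pa r i k) : ℕ) : ℝ) / 2 ^ k =
        |(pa r i k : ℝ) / 2 ^ k - (pa r j k : ℝ) / 2 ^ k| := by
      rw [← sub_div, abs_div, abs_of_pos hk]
      congr 1
      rcases le_total (pa r i k) (pa r j k) with h | h
      · have : (pa r i k : ℝ) ≤ pa r j k := by exact_mod_cast h
        rw [Nat.sub_eq_zero_of_le h, zero_add, Nat.cast_sub h, abs_of_nonpos (by linarith)]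
        ring
      · have : (pa r j k : ℝ) ≤ pa r i k := by exact_mod_cast h
        rw [Nat.sub_eq_zero_of_le h, add_zero, Nat.cast_sub h, abs_of_nonneg (by linarith)]
    show |(dist (cr r i) (cr r j)) - _| ≤ _
    dsimp only
    rw [h6]
    have h7 : dist (cr r i) (cr r j) = |pt r i - pt r j| := by
      rw [Subtype.dist_eq, Real.dist_eq]
      rfl
    rw [h7]
    refine (abs_abs_sub_abs_le_abs_sub _ _).trans ?_
    have hpos : (0 : ℝ) < 1 / 2 ^ (k + 1) := by positivity
    rw [abs_le]
    constructor <;> linarith [h3.1, h3.2, h4.1, h4.2]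

theorem Mr_homeo (hr : Computable₂ r) : Nonempty ((Mr hr).Y ≃ₜ ℕ) := by
  obtain ⟨e⟩ := nonempty_equiv_of_countable (α := Yr r) (β := ℕ)
  have h : Yr r ≃ₜ ℕ :=
    { toEquiv := e
      continuous_toFun := continuous_of_discreteTopology
      continuous_invFun := continuous_of_discreteTopology }
  exact ⟨h⟩

end lower

/-- From a computable map into the standard presentation, the images of the dense points are
computed. -/
theorem images_rec {a : ℕ → ℕ} {M : CMS} {h : M.Y → N0.Y} (hc : CompMapIn a M N0 h) :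
    Nat.RecursiveIn {orc a} (orc fun e => (h (M.c e) : ℕ)) := by
  obtain ⟨φ, hφ, h1⟩ := hc
  have hf : RecursiveIn {orc a} fun p : ℕ × ℕ => φ (List.replicate p.2 p.1, 1) := by
    have h2 : Primrec fun n : ℕ =>
        encode (((List.range n.unpair.2).map fun _ => n.unpair.1, 1) : List ℕ × ℕ) := by
      refine Primrec.encode.comp (Primrec.pair (Primrec.list_map (Primrec.list_range.comp
        (Primrec.snd.comp Primrec.unpair)) ?_) (Primrec.const 1))
      exact Primrec.fst.comp (Primrec.unpair.comp Primrec.fst)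
    refine (Nat.RecursiveIn.comp hφ
      (Pool.Agent.Helper583.TC.J3.ri_comput (O := {orc a}) h2.to_comp)).of_eq fun n => ?_
    have h3 : decode (α := ℕ × ℕ) n = some (n.unpair.1, n.unpair.2) := by
      rw [Encodable.decode_prod_val]
      simp
    rw [h3]
    show Part.bind (Part.some _) _ = _
    rw [Part.bind_some]
    simp only [Encodable.encodek, Part.coe_some, Part.bind_some]
    rw [List.map_const', List.length_range]
  obtain ⟨g, hg, h2, h3⟩ := Pool.Agent.Helper583.TC.J2.select hf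
  refine hg.of_eq fun e => ?_
  have hn : IsName M (fun _ => e) (M.c e) := by
    intro k
    rw [dist_self]; positivity
  obtain ⟨q, hq, h4⟩ := h1 _ _ hn
  obtain ⟨⟨k, hk⟩, h5⟩ := h4 1
  have hpre : ∀ k, pre (fun _ : ℕ => e) k = List.replicate k e := by
    intro k
    unfold pre
    rw [List.map_const', List.length_range]
  have hq1 : q 1 = h (M.c e) := by
    have h6 := hq 1
    rw [pow_one] at h6
    have h7 : dist (q 1 : ℕ) (h (M.c e) : ℕ) ≤ 1 / 2 := h6
    by_contra hne
    have h8 : (1 : ℝ) ≤ dist (q 1 : ℕ) (h (M.c e) : ℕ) := Nat.pairwise_one_le_dist hne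
    linarith
  have hd : (g e).Dom := by
    refine h3 e k ?_
    rw [hpre] at hk
    exact Part.dom_iff_mem.2 ⟨_, hk⟩
  obtain ⟨m, hm⟩ := Part.dom_iff_mem.1 hd
  obtain ⟨k', hk'⟩ := h2 e m hm
  have h9 : m = q 1 := h5 k' m (by rw [hpre]; exact hk')
  rw [Part.eq_some_iff.2 hm, h9, hq1]
  rfl

/-- Every oracle relative to which the countable infinite discrete space is categorical computes
every c.e. set. -/
theorem lower {a : ℕ → ℕ} (hc : Cat ℕ a) {r : ℕ → ℕ → Bool} (hr : Computable₂ r) {χ : ℕ → ℕ}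
    (hχ : ∀ n, χ n = 1 ∧ (∃ s, r n s = true) ∨ χ n = 0 ∧ ¬ ∃ s, r n s = true) : Red χ a := by
  obtain ⟨h, hh⟩ := hc (Mr hr) N0 (Mr_homeo hr) ⟨Homeomorph.refl ℕ⟩
  have h1 := images_rec hh
  have h2 : Nat.RecursiveIn {orc a}
      (orc fun n => Nat.pair (h ((Mr hr).c (2 * n)) : ℕ) (h ((Mr hr).c (2 * n + 1)) : ℕ)) :=
    Pool.Agent.Helper583.TC.J3.ri_pair
      (Pool.Agent.Helper583.TC.J3.ri_comp h1
        (Pool.Agent.Helper583.TC.J3.ri_comput (f := fun n => 2 * n) (by fun_prop)))
      (Pool.Agent.Helper583.TC.J3.ri_comp h1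
        (Pool.Agent.Helper583.TC.J3.ri_comput (f := fun n => 2 * n + 1) (by fun_prop)))
  have h3 : Computable fun m : ℕ => if m.unpair.1 = m.unpair.2 then 0 else 1 :=
    RE.cite (RE.cp_eq (by fun_prop) (by fun_prop)) (by fun_prop) (by fun_prop)
  have h4 := Pool.Agent.Helper583.TC.J3.ri_comp
    (Pool.Agent.Helper583.TC.J3.ri_comput (O := {orc a}) h3) h2
  refine h4.of_eq fun n => ?_
  show Part.some _ = Part.some _
  congr 1
  dsimp only
  rw [Nat.unpair_pair]
  dsimp only
  have h5 := cr_eq_iff r n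
  have h6 : (h ((Mr hr).c (2 * n)) : ℕ) = h ((Mr hr).c (2 * n + 1)) ↔
      cr r (2 * n) = cr r (2 * n + 1) := h.injective.eq_iff
  rcases hχ n with ⟨h7, h8⟩ | ⟨h7, h8⟩
  · rw [h7, if_neg]
    exact fun h9 => h5.2 h8 (h6.1 h9)
  · rw [h7, if_pos]
    refine h6.2 ?_
    by_contra hne
    exact h8 (h5.1 hne)

end Pool.Agent.X235.TCat
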