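import Pool.Agent.X235.TCat.Base

set_option autoImplicit false

/-!
Between two computable presentations of the countable infinite discrete space there is a
homeomorphism computable, in both directions, relative to the halting set.
-/

namespace Pool.Agent.X235.TCat

open Encodable Pool.Agent.Helper446 Pool.Agent.Helper446.Oracle Pool.Agent.Helper446.Defs
open Pool.Agent.Helper583.TT (CMS IsName pre)
open Pool.Agent.Helper583.TC (orc Red)
open Pool.Agent.H109R3.TC

section disc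

variable (M : CMS)

theorem c_surj [DiscreteTopology M.Y] : Function.Surjective M.c := by
  have h := M.dense.closure_range
  rw [(isClosed_discrete _).closure_eq] at h
  exact Set.range_eq_univ.1 h

theorem exists_iso [DiscreteTopology M.Y] (i : ℕ) : ∃ e, Iso M i e := by
  have h : IsOpen ({M.c i} : Set M.Y) := isOpen_discrete _
  obtain ⟨ε, hε, h1⟩ := Metric.isOpen_iff.1 h _ rfl
  obtain ⟨e, he⟩ := exists_pow_lt_of_lt_one hε (show (1 / 2 : ℝ) < 1 by norm_num)
  refine ⟨e, fun j hj => ?_⟩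
  rw [div_pow, one_pow] at he
  have : M.c j ∈ Metric.ball (M.c i) ε := by
    rw [Metric.mem_ball, dist_comm]
    linarith
  exact h1 this

noncomputable def ei [DiscreteTopology M.Y] (i : ℕ) : ℕ :=
  open Classical in Nat.find (exists_iso M i)

theorem ei_spec [DiscreteTopology M.Y] (i : ℕ) : Iso M i (ei M i) := by
  classical
  exact Nat.find_spec (exists_iso M i)

theorem iso_rein : REIn K fun p : ℕ × ℕ => Iso M p.1 p.2 := by
  refine (rein_not (niso_re M)).of_eq fun p => not_not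

theorem tot_ei [DiscreteTopology M.Y] : TotIn K (ei M) := by
  classical
  apply recursiveIn_of_graph
  have h1 : REIn K fun p : ℕ × ℕ => Iso M p.1 p.2 ∧ ∀ e < p.2, ¬ Iso M p.1 e := by
    refine REIn.and (iso_rein M) ?_
    refine REIn.all_lt (S := fun (p : ℕ × ℕ) e => ¬ Iso M p.1 e) ?_ (by fun_prop)
    exact REIn.of_re (RE.comp (niso_re M) (f := fun x : (ℕ × ℕ) × ℕ => (x.1.1, x.2)) (by fun_prop))
  refine h1.of_eq fun p => ?_
  unfold ei
  exact (Nat.find_eq_iff (exists_iso M p.1)).symm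

/-! ### the functional -/

variable {M}

/-- data for the functional -/
structure Dat (M : CMS) (H : ℕ → ℕ) where
  b : ((ℕ × ℕ) × (ℕ × ℕ)) → ℕ → Bool
  hb : Computable₂ b
  hb' : ∀ a i k e, Tst M a i k e ↔ ∃ l, b ((a, i), (k, e)) l = true

variable {H : ℕ → ℕ} [DiscreteTopology M.Y]

def P (D : Dat M H) (σ : List ℕ) (i : ℕ) : Prop :=
  ∃ k < σ.length, ∃ l < σ.length, D.b ((σ.getD k 0, i), (k, ei M i)) l = true

open Classical in
noncomputable def T (D : Dat M H) (σ : List ℕ) : ℕ :=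
  if h : ∃ i, i < σ.length ∧ P D σ i then H (Nat.find h) + 1 else 0

theorem rein_P (D : Dat M H) : REIn K fun x : List ℕ × ℕ => P D x.1 x.2 := by
  have h1 : REIn K fun x : List ℕ × ℕ => ∃ k, k < x.1.length ∧ ∃ l, l < x.1.length ∧
      ∃ e, ei M x.2 = e ∧ D.b ((x.1.getD k 0, x.2), (k, e)) l = true := by
    refine REIn.ex (S := fun (x : List ℕ × ℕ) k => k < x.1.length ∧ ∃ l, l < x.1.length ∧
      ∃ e, ei M x.2 = e ∧ D.b ((x.1.getD k 0, x.2), (k, e)) l = true) ?_
    refine REIn.and (REIn.of_re (RE.lt (by fun_prop) (by fun_prop))) ?_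
    refine REIn.ex (S := fun (x : (List ℕ × ℕ) × ℕ) l => l < x.1.1.length ∧
      ∃ e, ei M x.1.2 = e ∧ D.b ((x.1.1.getD x.2 0, x.1.2), (x.2, e)) l = true) ?_
    refine REIn.and (REIn.of_re (RE.lt (by fun_prop) (by fun_prop))) ?_
    refine REIn.ex (S := fun (x : ((List ℕ × ℕ) × ℕ) × ℕ) e => ei M x.1.1.2 = e ∧
      D.b ((x.1.1.1.getD x.1.2 0, x.1.1.2), (x.1.2, e)) x.2 = true) ?_
    refine REIn.and ?_ (REIn.of_re (RE.of_bool ?_))
    · exact (graph_tot (tot_ei M)).comp
        (f := fun x : (((List ℕ × ℕ) × ℕ) × ℕ) × ℕ => (x.1.1.1.2, x.2)) (by fun_prop)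
    · have hg : Computable fun x : (((List ℕ × ℕ) × ℕ) × ℕ) × ℕ => x.1.1.1.1.getD x.1.1.2 0 := by
        have : Computable fun x : (((List ℕ × ℕ) × ℕ) × ℕ) × ℕ =>
            (x.1.1.1.1[x.1.1.2]?).getD 0 :=
          Primrec.option_getD.to_comp.comp (by fun_prop) (by fun_prop)
        refine this.of_eq fun x => ?_
        simp
      exact Computable₂.comp D.hb (g := fun x : (((List ℕ × ℕ) × ℕ) × ℕ) × ℕ =>
        ((x.1.1.1.1.getD x.1.1.2 0, x.1.1.1.2), (x.1.1.2, x.2)))
        (h := fun x : (((List ℕ × ℕ) × ℕ) × ℕ) × ℕ => x.1.2) (by fun_prop) (by fun_prop)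
  refine h1.of_eq fun x => ?_
  unfold P
  constructor
  · rintro ⟨k, hk, l, hl, e, he, h⟩
    exact ⟨k, hk, l, hl, by rw [he]; exact h⟩
  · rintro ⟨k, hk, l, hl, h⟩
    exact ⟨k, hk, l, hl, _, rfl, h⟩

theorem rein_notP (D : Dat M H) : REIn K fun x : List ℕ × ℕ => ¬ P D x.1 x.2 := by
  have h1 : REIn K fun x : List ℕ × ℕ => ∀ k < x.1.length, ∀ l < x.1.length,
      ∃ e, ei M x.2 = e ∧ D.b ((x.1.getD k 0, x.2), (k, e)) l = false := by
    refine REIn.all_lt (S := fun (x : List ℕ × ℕ) k => ∀ l < x.1.length,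
      ∃ e, ei M x.2 = e ∧ D.b ((x.1.getD k 0, x.2), (k, e)) l = false) ?_ (by fun_prop)
    refine REIn.all_lt (S := fun (x : (List ℕ × ℕ) × ℕ) l =>
      ∃ e, ei M x.1.2 = e ∧ D.b ((x.1.1.getD x.2 0, x.1.2), (x.2, e)) l = false) ?_ (by fun_prop)
    refine REIn.ex (S := fun (x : ((List ℕ × ℕ) × ℕ) × ℕ) e => ei M x.1.1.2 = e ∧
      D.b ((x.1.1.1.getD x.1.2 0, x.1.1.2), (x.1.2, e)) x.2 = false) ?_
    refine REIn.and ?_ (REIn.of_re (RE.eq ?_ (by fun_prop)))
    · exact (graph_tot (tot_ei M)).comp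
        (f := fun x : (((List ℕ × ℕ) × ℕ) × ℕ) × ℕ => (x.1.1.1.2, x.2)) (by fun_prop)
    · have hg : Computable fun x : (((List ℕ × ℕ) × ℕ) × ℕ) × ℕ => x.1.1.1.1.getD x.1.1.2 0 := by
        have : Computable fun x : (((List ℕ × ℕ) × ℕ) × ℕ) × ℕ =>
            (x.1.1.1.1[x.1.1.2]?).getD 0 :=
          Primrec.option_getD.to_comp.comp (by fun_prop) (by fun_prop)
        refine this.of_eq fun x => ?_
        simp
      exact Computable₂.comp D.hb (g := fun x : (((List ℕ × ℕ) × ℕ) × ℕ) × ℕ =>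
        ((x.1.1.1.1.getD x.1.1.2 0, x.1.1.1.2), (x.1.1.2, x.2)))
        (h := fun x : (((List ℕ × ℕ) × ℕ) × ℕ) × ℕ => x.1.2) (by fun_prop) (by fun_prop)
  refine h1.of_eq fun x => ?_
  unfold P
  push Not
  constructor
  · intro h k hk l hl
    obtain ⟨e, he, h⟩ := h k hk l hl
    rw [he, h]; simp
  · intro h k hk l hl
    exact ⟨_, rfl, by simpa using h k hk l hl⟩

theorem graph_T (D : Dat M H) (hH : TotIn K H) :
    REIn K fun x : List ℕ × ℕ => T D x.1 = x.2 := by
  classical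
  have h1 : REIn K fun x : List ℕ × ℕ =>
      (x.2 = 0 ∧ ∀ i < x.1.length, ¬ P D x.1 i) ∨
      ∃ i, (i < x.1.length ∧ P D x.1 i) ∧
        (∀ j < i, ¬ P D x.1 j) ∧ ∃ v, H i = v ∧ x.2 = v + 1 := by
    refine REIn.or (REIn.and (REIn.of_re (RE.eq (by fun_prop) (by fun_prop))) ?_) ?_
    · refine REIn.all_lt (S := fun (x : List ℕ × ℕ) i => ¬ P D x.1 i) ?_ (by fun_prop)
      exact (rein_notP D).comp (f := fun x : (List ℕ × ℕ) × ℕ => (x.1.1, x.2)) (by fun_prop)
    · refine REIn.ex (S := fun (x : List ℕ × ℕ) i => (i < x.1.length ∧ P D x.1 i) ∧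
        (∀ j < i, ¬ P D x.1 j) ∧ ∃ v, H i = v ∧ x.2 = v + 1) ?_
      refine REIn.and (REIn.and (REIn.of_re (RE.lt (by fun_prop) (by fun_prop))) ?_)
        (REIn.and ?_ ?_)
      · exact (rein_P D).comp (f := fun x : (List ℕ × ℕ) × ℕ => (x.1.1, x.2)) (by fun_prop)
      · refine REIn.all_lt (S := fun (x : (List ℕ × ℕ) × ℕ) j => ¬ P D x.1.1 j) ?_ (by fun_prop)
        exact (rein_notP D).comp (f := fun x : ((List ℕ × ℕ) × ℕ) × ℕ => (x.1.1.1, x.2))
          (by fun_prop)
      · refine REIn.ex (S := fun (x : (List ℕ × ℕ) × ℕ) v => H x.2 = v ∧ x.1.2 = v + 1) ?_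
        refine REIn.and ?_ (REIn.of_re (RE.eq (by fun_prop) (by fun_prop)))
        exact (graph_tot hH).comp (f := fun x : ((List ℕ × ℕ) × ℕ) × ℕ => (x.1.2, x.2))
          (by fun_prop)
  refine h1.of_eq fun x => ?_
  obtain ⟨σ, y⟩ := x
  dsimp only
  unfold T
  by_cases h : ∃ i, i < σ.length ∧ P D σ i
  · rw [dif_pos h]
    obtain ⟨h2, h3⟩ := Nat.find_spec h
    constructor
    · rintro (⟨-, h4⟩ | ⟨i, ⟨h4, h5⟩, h6, v, h7, h8⟩)
      · exact absurd h3 (h4 _ h2)
      · have : Nat.find h = i := by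
          rw [Nat.find_eq_iff]
          exact ⟨⟨h4, h5⟩, fun j hj h9 => h6 j hj h9.2⟩
        rw [this, h7, h8]
    · intro h4
      refine Or.inr ⟨Nat.find h, ⟨h2, h3⟩, fun j hj h5 => ?_, _, rfl, h4.symm⟩
      exact Nat.find_min h hj ⟨lt_trans hj h2, h5⟩
  · rw [dif_neg h]
    push Not at h
    constructor
    · rintro (⟨h4, -⟩ | ⟨i, ⟨h4, h5⟩, -⟩)
      · exact h4.symm
      · exact absurd h5 (h i h4)
    · intro h4
      exact Or.inl ⟨h4.symm, h⟩

theorem tot_T (D : Dat M H) (hH : TotIn K H) :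
    TotIn K fun n => T D (Denumerable.ofNat (List ℕ) n) := by
  have hof : Computable fun n : ℕ => Denumerable.ofNat (List ℕ) n := Computable.ofNat _
  exact recursiveIn_of_graph ((graph_T D hH).comp
    (f := fun x : ℕ × ℕ => (Denumerable.ofNat (List ℕ) x.1, x.2))
    ((hof.comp Computable.fst).pair Computable.snd))

theorem getD_pre {A : Type} (p : ℕ → A) (n k : ℕ) (d : A) (h : k < n) :
    (pre p n).getD k d = p k := by
  unfold pre
  rw [List.getD_eq_getElem?_getD, List.getElem?_map, List.getElem?_range h]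
  rfl

theorem length_pre {A : Type} (p : ℕ → A) (n : ℕ) : (pre p n).length = n := by
  simp [pre]

theorem T_sound (D : Dat M H) {x : M.Y} {p : ℕ → ℕ} (hp : IsName M p x) {L m : ℕ}
    (h : T D (pre p L) = m + 1) : ∃ i, M.c i = x ∧ H i = m := by
  classical
  unfold T at h
  by_cases h1 : ∃ i, i < (pre p L).length ∧ P D (pre p L) i
  · rw [dif_pos h1] at h
    obtain ⟨h2, k, hk, l, hl, h3⟩ := Nat.find_spec h1
    refine ⟨Nat.find h1, ?_, by omega⟩
    rw [length_pre] at hk
    rw [getD_pre _ _ _ _ hk] at h3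
    have h4 := (D.hb' _ _ _ _).2 ⟨l, h3⟩
    unfold Tst at h4
    obtain ⟨j, rfl⟩ := c_surj M x
    symm
    apply ei_spec M (Nat.find h1) j
    have h5 := dist_triangle (M.c (Nat.find h1)) (M.c (p k)) (M.c j)
    have h6 := hp k
    rw [dist_comm (M.c (Nat.find h1)) (M.c (p k))] at h5
    linarith
  · rw [dif_neg h1] at h
    omega

theorem T_complete (D : Dat M H) {x : M.Y} {p : ℕ → ℕ} (hp : IsName M p x) :
    ∃ L m, T D (pre p L) = m + 1 := by
  classical
  obtain ⟨i, rfl⟩ := c_surj M x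
  set k := ei M i + 2 with hk
  have h1 : Tst M (p k) i k (ei M i) := by
    unfold Tst
    have h2 := hp k
    have h3 : (1 : ℝ) / 2 ^ k = 1 / 2 ^ (ei M i) / 4 := by
      rw [hk, pow_add]; field_simp; norm_num
    have h4 : (0 : ℝ) < 1 / 2 ^ (ei M i) := by positivity
    rw [h3] at h2 ⊢
    linarith
  obtain ⟨l, hl⟩ := (D.hb' _ _ _ _).1 h1
  refine ⟨max (max k l) i + 1, ?_⟩
  have h2 : ∃ j, j < (pre p (max (max k l) i + 1)).length ∧ P D (pre p (max (max k l) i + 1)) j := by
    refine ⟨i, ?_, k, ?_, l, ?_, ?_⟩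
    · rw [length_pre]; omega
    · rw [length_pre]; omega
    · rw [length_pre]; omega
    · rw [getD_pre _ _ _ _ (by omega)]; exact hl
  unfold T
  rw [dif_pos h2]
  exact ⟨_, rfl⟩

/-- the partial function which subtracts one -/
theorem partrec_sub : Nat.Partrec fun n : ℕ => if n = 0 then Part.none else Part.some (n - 1) := by
  have h : Computable fun n : ℕ => if n = 0 then (none : Option ℕ) else some (n - 1) := by
    have : Primrec fun n : ℕ => if n = 0 then (none : Option ℕ) else some (n - 1) :=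
      Primrec.ite (Primrec.eq.comp Primrec.id (Primrec.const 0)) (Primrec.const none)
        (Primrec.option_some.comp (Primrec.pred))
    exact this.to_comp
  refine (Partrec.nat_iff.1 h.ofOption).of_eq fun n => ?_
  by_cases hn : n = 0
  · simp [hn]
  · simp [hn]

/-- The functional is correct. -/
theorem compMap_of {N : CMS} (h : M.Y → N.Y) (hH : TotIn K H)
    (h1 : ∀ i, N.c (H i) = h (M.c i)) (h2 : ∀ i j, M.c i = M.c j → H i = H j) :
    CompMapIn (chiN K) M N h := by
  obtain ⟨b, hb, hb'⟩ := RE.re_iff.1 (tst_re M)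
  let D : Dat M H := ⟨b, hb, fun a i k e => hb' ((a, i), (k, e))⟩
  refine ⟨fun p => if T D p.1 = 0 then Part.none else Part.some (T D p.1 - 1), ?_, ?_⟩
  · show Nat.RecursiveIn _ _
    have h3 : Nat.RecursiveIn {orc (chiN K)}
        fun n => Part.some (T D (Denumerable.ofNat (List ℕ) n.unpair.1)) :=
      (tot_T D hH).comp (TotIn.of_comp (f := fun n : ℕ => n.unpair.1) (by fun_prop))
    refine (Nat.RecursiveIn.comp (Nat.Partrec.recursiveIn partrec_sub) h3).of_eq fun n => ?_
    have h4 : decode (α := List ℕ × ℕ) n =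
        some (Denumerable.ofNat (List ℕ) n.unpair.1, n.unpair.2) := by
      rw [Encodable.decode_prod_val]
      rw [Denumerable.decode_eq_ofNat, Denumerable.decode_eq_ofNat]
      simp
    rw [h4]
    simp only [Part.bind_eq_bind, Part.bind_some, Part.coe_some]
    by_cases h5 : T D (Denumerable.ofNat (List ℕ) n.unpair.1) = 0
    · simp [h5]
    · simp [h5]
  · intro x p hp
    obtain ⟨L, m, hL⟩ := T_complete D hp
    refine ⟨fun _ => m, ?_, fun n => ⟨⟨L, ?_⟩, ?_⟩⟩
    · obtain ⟨i, hi, hm⟩ := T_sound D hp hL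
      intro k
      rw [← hm, h1, hi, dist_self]
      positivity
    · dsimp only
      rw [if_neg (by omega), hL]
      simp
    · intro k m' hm'
      dsimp only at hm'
      by_cases h0 : T D (pre p k) = 0
      · rw [if_pos h0] at hm'
        exact absurd hm' (Part.notMem_none _)
      · rw [if_neg h0, Part.mem_some_iff] at hm'
        obtain ⟨i, hi, hm⟩ := T_sound D hp hL
        obtain ⟨j, hj, hm2⟩ := T_sound D hp (L := k) (m := m') (by omega)
        rw [← hm, ← hm2]
        exact h2 _ _ (hj.trans hi.symm)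

end disc

end Pool.Agent.X235.TCat
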